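import Mathlib

namespace Pool.Agent.Results.MP_d4bd36_an.MacGregor

open Complex Metric Set Finset

/-- The class of normalised univalent functions on the unit disk: holomorphic and injective on
the unit disk, with value 0 and derivative 1 at the origin. -/
def classS : Set (ℂ → ℂ) :=
  {f | DifferentiableOn ℂ f (ball 0 1) ∧ InjOn f (ball 0 1) ∧ f 0 = 0 ∧ deriv f 0 = 1}

/-- The radial reach of `f`: the supremum (in `[0,∞]`) of all `ℓ > 0` for which some half-open
radial segment `{t e^{iθ} : 0 ≤ t < ℓ}` lies in the image of the unit disk. -/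
noncomputable def radialReach (f : ℂ → ℂ) : ENNReal :=
  ⨆ (ℓ : ℝ) (_ : 0 < ℓ ∧ ∃ θ : ℝ, ∀ t : ℝ, 0 ≤ t → t < ℓ →
    (t : ℂ) * exp (θ * I) ∈ f '' ball 0 1), ENNReal.ofReal ℓ

/-! ### Coefficients -/

/-- coefficient functional -/
noncomputable def cf (r : ℝ) (m : ℕ) (h : ℂ → ℂ) : ℂ :=
  (2 * Real.pi * I : ℂ)⁻¹ • ∮ x in C(0, r), (x ^ (m + 1))⁻¹ * h x

lemma cf_norm_le {r : ℝ} (hr : 0 < r) (m : ℕ) (h : ℂ → ℂ) (C : ℝ)
    (hC : ∀ x ∈ sphere (0 : ℂ) r, ‖h x‖ ≤ C) : ‖cf r m h‖ ≤ C / r ^ m := by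
  unfold cf
  have := circleIntegral.norm_two_pi_i_inv_smul_integral_le_of_norm_le_const
    (f := fun x => (x ^ (m + 1))⁻¹ * h x) (c := 0) (R := r) (C := C / r ^ (m + 1)) hr.le ?_
  · refine this.trans (le_of_eq ?_)
    rw [pow_succ]
    field_simp
  · intro x hx
    have hx' : ‖x‖ = r := by simpa using hx
    rw [norm_mul, norm_inv, norm_pow, hx', div_eq_inv_mul]
    exact mul_le_mul_of_nonneg_left (hC x hx) (by positivity)

lemma geom_id (u : ℂ) (hu : 1 - u ≠ 0) (m : ℕ) :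
    (1 - u)⁻¹ = ∑ k ∈ range (m + 1), u ^ k + u ^ (m + 1) * (1 - u)⁻¹ := by
  have h := geom_sum_mul_neg u (m + 1)
  field_simp
  rw [mul_comm, h]; ring

section coeff

variable {f : ℂ → ℂ} (hf : DifferentiableOn ℂ f (ball 0 1)) (h0 : f 0 = 0) (h1 : deriv f 0 = 1)
  {r : ℝ} (hr0 : 0 < r) (hr1 : r < 1)

include hf h0 in
lemma fact_g : ∃ g : ℂ → ℂ, DifferentiableOn ℂ g (ball 0 1) ∧ g 0 = deriv f 0 ∧
    ∀ x, f x = x * g x := by
  refine ⟨dslope f 0, ?_, ?_, ?_⟩
  · exact (Complex.differentiableOn_dslope (ball_mem_nhds _ one_pos)).2 hf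
  · simp
  · intro x
    have := sub_smul_dslope f 0 x
    simp only [sub_zero, smul_eq_mul, h0] at this
    exact this.symm

include hf h0 h1 hr0 hr1 in
lemma cf_pow_self (m : ℕ) : cf r m (fun x => f x ^ m) = 1 := by
  obtain ⟨g, hg, hg0, hfg⟩ := fact_g hf h0
  have hsub : closedBall (0 : ℂ) r ⊆ ball 0 1 := closedBall_subset_ball hr1
  have hgm : DifferentiableOn ℂ (fun x => g x ^ m) (closedBall 0 r) := (hg.mono hsub).pow m
  have key := hgm.circleIntegral_sub_inv_smul (mem_ball_self hr0)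
  unfold cf
  have heq : (∮ x in C(0, r), (x ^ (m + 1))⁻¹ * f x ^ m)
      = ∮ x in C(0, r), (x - 0)⁻¹ • (g x ^ m) := by
    apply circleIntegral.integral_congr hr0.le
    intro x hx
    have hx0 : x ≠ 0 := by
      rintro rfl
      simp at hx
      exact hr0.ne hx
    simp only [hfg x, smul_eq_mul, sub_zero, mul_pow, pow_succ]
    field_simp
  rw [heq, key, smul_smul, inv_mul_cancel₀ (by simp [Real.pi_ne_zero]), one_smul, hg0, h1, one_pow]

include hr0 in
omit hf hr1 in
lemma circleInt_aux (h : ℂ → ℂ) (hh : ContinuousOn h (sphere 0 r)) (m : ℕ) :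
    CircleIntegrable (fun x => (x ^ (m + 1))⁻¹ * h x) 0 r := by
  apply ContinuousOn.circleIntegrable hr0.le
  apply ContinuousOn.mul _ hh
  apply ContinuousOn.inv₀ (by fun_prop)
  intro x hx
  have hx' : ‖x‖ = r := by simpa using hx
  apply pow_ne_zero
  intro h; rw [h] at hx'; simp at hx'; exact hr0.ne hx'

include hf h0 hr0 hr1 in
lemma cf_inv (m : ℕ) (z : ℂ) (hz : ∀ x ∈ ball (0 : ℂ) 1, 1 - z * f x ≠ 0) :
    cf r m (fun x => (1 - z * f x)⁻¹)
      = ∑ k ∈ range (m + 1), z ^ k * cf r m (fun x => f x ^ k) := by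
  obtain ⟨g, hg, hg0, hfg⟩ := fact_g hf h0
  have hsub : closedBall (0 : ℂ) r ⊆ ball 0 1 := closedBall_subset_ball hr1
  have hsub' : sphere (0 : ℂ) r ⊆ ball 0 1 := sphere_subset_closedBall.trans hsub
  have hfc : ContinuousOn f (sphere 0 r) := (hf.mono hsub').continuousOn
  unfold cf
  have heq : (∮ x in C(0, r), (x ^ (m + 1))⁻¹ * (1 - z * f x)⁻¹)
      = ∮ x in C(0, r), ((∑ k ∈ range (m + 1), z ^ k * ((x ^ (m + 1))⁻¹ * f x ^ k))
          + z ^ (m + 1) * (g x ^ (m + 1) * (1 - z * f x)⁻¹)) := by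
    apply circleIntegral.integral_congr hr0.le
    intro x hx
    have hx0 : x ≠ 0 := by
      rintro rfl
      simp at hx
      exact hr0.ne hx
    have hne := hz x (hsub' hx)
    simp only
    conv_lhs => rw [geom_id _ hne m, mul_add, mul_sum]
    congr 1
    · apply sum_congr rfl
      intro k _
      rw [mul_pow]; ring
    · have hxm : x ^ (m + 1) ≠ 0 := pow_ne_zero _ hx0
      have e1 : (z * f x) ^ (m + 1) = z ^ (m + 1) * (x ^ (m + 1) * g x ^ (m + 1)) := by
        rw [mul_pow, hfg x, mul_pow]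
      rw [e1]
      calc (x ^ (m + 1))⁻¹ * (z ^ (m + 1) * (x ^ (m + 1) * g x ^ (m + 1)) * (1 - z * f x)⁻¹)
          = ((x ^ (m + 1))⁻¹ * x ^ (m + 1)) *
            (z ^ (m + 1) * (g x ^ (m + 1) * (1 - z * f x)⁻¹)) := by ring
        _ = _ := by rw [inv_mul_cancel₀ hxm, one_mul]
  rw [heq, circleIntegral.integral_add, circleIntegral.integral_fun_sum]
  · have hz0 : (∮ x in C(0, r), z ^ (m + 1) * (g x ^ (m + 1) * (1 - z * f x)⁻¹)) = 0 := by
      have hd : DifferentiableOn ℂ (fun x => z ^ (m + 1) * (g x ^ (m + 1) * (1 - z * f x)⁻¹))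
          (ball 0 1) := by
        apply DifferentiableOn.const_mul
        apply DifferentiableOn.mul (hg.pow _)
        apply DifferentiableOn.inv _ hz
        exact (differentiableOn_const _).sub (hf.const_mul z)
      apply Complex.circleIntegral_eq_zero_of_differentiable_on_off_countable hr0.le
        Set.countable_empty (hd.mono hsub).continuousOn
      intro x hx
      exact (hd x (hsub (ball_subset_closedBall hx.1))).differentiableAt
        (isOpen_ball.mem_nhds (hsub (ball_subset_closedBall hx.1)))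
    rw [hz0, add_zero, smul_sum]
    apply sum_congr rfl
    intro k _
    rw [circleIntegral.integral_const_mul]
    simp only [smul_eq_mul]
    ring
  · intro k _
    have := circleInt_aux hr0 (fun x => f x ^ k) (hfc.pow k) m
    exact this.const_mul _
  · apply ContinuousOn.circleIntegrable hr0.le
    apply continuousOn_finsetSum
    intro k _
    apply ContinuousOn.mul continuousOn_const
    apply ContinuousOn.mul _ (hfc.pow k)
    apply ContinuousOn.inv₀ (by fun_prop)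
    intro x hx
    have hx' : ‖x‖ = r := by simpa using hx
    apply pow_ne_zero
    intro h; rw [h] at hx'; simp at hx'; exact hr0.ne hx'
  · apply ContinuousOn.circleIntegrable hr0.le
    apply ContinuousOn.mul continuousOn_const
    apply ContinuousOn.mul ((hg.mono hsub').continuousOn.pow _)
    apply ContinuousOn.inv₀ (continuousOn_const.sub (continuousOn_const.mul hfc))
    intro x hx
    exact hz x (hsub' hx)

include hf h0 h1 hr0 hr1 in
/-- The determinant comparison: for omitted reciprocals. -/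
lemma vandermonde_upper {n : ℕ} (v : Fin n → ℂ)
    (hv : ∀ i, ∀ x ∈ ball (0 : ℂ) 1, 1 - v i * f x ≠ 0) (C : ℝ)
    (hC : ∀ i, ∀ x ∈ sphere (0 : ℂ) r, ‖(1 - v i * f x)⁻¹‖ ≤ C) :
    ‖(Matrix.vandermonde v).det‖ ≤ n.factorial * ∏ m : Fin n, (C / r ^ (m : ℕ)) := by
  classical
  let a : ℕ → ℕ → ℂ := fun k m => cf r m (fun x => f x ^ k)
  let Q : Fin n → Polynomial ℂ := fun m =>
    ∑ k ∈ range ((m : ℕ) + 1), Polynomial.C (a k m) * Polynomial.X ^ k
  have hQ : ∀ m : Fin n, Q m = Polynomial.X ^ (m : ℕ)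
      + ∑ k ∈ range (m : ℕ), Polynomial.C (a k m) * Polynomial.X ^ k := by
    intro m
    simp only [Q]
    rw [sum_range_succ, add_comm]
    congr 1
    have : a m m = 1 := cf_pow_self hf h0 h1 hr0 hr1 m
    rw [this]; simp
  have hdeg : ∀ m : Fin n, (∑ k ∈ range (m : ℕ),
      Polynomial.C (a k m) * Polynomial.X ^ k).degree < ((m : ℕ) : WithBot ℕ) := by
    intro m
    apply lt_of_le_of_lt (Polynomial.degree_sum_le _ _)
    rw [Finset.sup_lt_iff (by exact_mod_cast WithBot.bot_lt_coe _)]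
    intro k hk
    apply lt_of_le_of_lt (Polynomial.degree_C_mul_X_pow_le _ _)
    exact_mod_cast Finset.mem_range.1 hk
  have hmonic : ∀ m, (Q m).Monic := by
    intro m; rw [hQ m]; exact Polynomial.monic_X_pow_add (hdeg m)
  have hnat : ∀ m, (Q m).natDegree = m := by
    intro m; rw [hQ m]
    have : (Polynomial.X ^ (m : ℕ) + ∑ k ∈ range (m : ℕ),
      Polynomial.C (a k m) * Polynomial.X ^ k).degree = ((m : ℕ) : WithBot ℕ) := by
      rw [Polynomial.degree_add_eq_left_of_degree_lt]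
      · simp
      · rw [Polynomial.degree_X_pow]; exact hdeg m
    exact Polynomial.natDegree_eq_of_degree_eq_some this
  rw [Matrix.det_eval_matrixOfPolynomials_eq_det_vandermonde v Q hnat hmonic]
  have hent : ∀ i m, ‖(Q m).eval (v i)‖ ≤ C / r ^ (m : ℕ) := by
    intro i m
    have e : (Q m).eval (v i) = cf r m (fun x => (1 - v i * f x)⁻¹) := by
      rw [cf_inv hf h0 hr0 hr1 m (v i) (hv i)]
      simp only [Q, Polynomial.eval_finsetSum, Polynomial.eval_mul, Polynomial.eval_C,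
        Polynomial.eval_pow, Polynomial.eval_X]
      apply sum_congr rfl
      intro k _
      simp only [a]; ring
    rw [e]
    exact cf_norm_le hr0 _ _ _ (hC i)
  rw [Matrix.det_apply]
  refine (norm_sum_le _ _).trans ?_
  have hterm : ∀ σ ∈ (Finset.univ : Finset (Equiv.Perm (Fin n))),
      ‖Equiv.Perm.sign σ • ∏ i, (Matrix.of fun i j => ((Q j).eval (v i))) (σ i) i‖
        ≤ ∏ m : Fin n, (C / r ^ (m : ℕ)) := by
    intro σ _
    have : ‖Equiv.Perm.sign σ • ∏ i, (Matrix.of fun i j => ((Q j).eval (v i))) (σ i) i‖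
        = ∏ i, ‖(Q i).eval (v (σ i))‖ := by
      rw [Units.smul_def, ← norm_prod]
      rcases Int.units_eq_one_or (Equiv.Perm.sign σ) with h | h <;> rw [h] <;> simp
    rw [this]
    exact prod_le_prod (fun _ _ => norm_nonneg _) (fun i _ => hent _ _)
  refine (sum_le_card_nsmul _ _ _ hterm).trans ?_
  rw [card_univ, Fintype.card_perm, Fintype.card_fin, nsmul_eq_mul]

end coeff

/-! ### Roots of unity -/

lemma vandermonde_roots (n : ℕ) (hn : 0 < n) :
    1 ≤ ‖(Matrix.vandermonde (fun i : Fin n => exp (2 * Real.pi * I / n) ^ (i : ℕ))).det‖ := by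
  set ζ : ℂ := exp (2 * Real.pi * I / n) with hζ
  have hprim : IsPrimitiveRoot ζ n := Complex.isPrimitiveRoot_exp n hn.ne'
  have hnorm : ‖ζ‖ = 1 := hprim.norm'_eq_one hn.ne'
  have hζ0 : ζ ≠ 0 := by intro h; rw [h] at hnorm; simp at hnorm
  set V := Matrix.vandermonde (fun i : Fin n => ζ ^ (i : ℕ)) with hV
  have hmul : V * V.conjTranspose = (n : ℂ) • (1 : Matrix (Fin n) (Fin n) ℂ) := by
    ext i j
    rw [Matrix.mul_apply]
    simp only [hV, Matrix.vandermonde_apply, Matrix.conjTranspose_apply, Matrix.smul_apply,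
      smul_eq_mul, RCLike.star_def, map_pow]
    have hconj : (starRingEnd ℂ) ζ = ζ⁻¹ := by
      rw [Complex.inv_def, Complex.normSq_eq_norm_sq, hnorm]; simp
    have : ∀ k : Fin n, (ζ ^ (i : ℕ)) ^ (k : ℕ) * (((starRingEnd ℂ) ζ) ^ (j : ℕ)) ^ (k : ℕ)
        = (ζ ^ (i : ℕ) * (ζ ^ (j : ℕ))⁻¹) ^ (k : ℕ) := by
      intro k; rw [hconj, mul_pow, inv_pow]
    simp_rw [this]
    rw [Fin.sum_univ_eq_sum_range (fun k => (ζ ^ (i : ℕ) * (ζ ^ (j : ℕ))⁻¹) ^ k) n]
    by_cases hij : i = j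
    · subst hij
      rw [mul_inv_cancel₀ (pow_ne_zero _ hζ0)]
      simp
    · rw [Matrix.one_apply_ne hij, mul_zero]
      have hne : ζ ^ (i : ℕ) * (ζ ^ (j : ℕ))⁻¹ ≠ 1 := by
        intro h
        apply hij
        have h' : ζ ^ (i : ℕ) = ζ ^ (j : ℕ) := by
          field_simp at h; exact h
        exact Fin.ext (hprim.pow_inj i.2 j.2 h')
      have hpow : (ζ ^ (i : ℕ) * (ζ ^ (j : ℕ))⁻¹) ^ n = 1 := by
        rw [mul_pow, inv_pow, ← pow_mul, ← pow_mul, mul_comm (i : ℕ), mul_comm (j : ℕ),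
          pow_mul, pow_mul, hprim.pow_eq_one]; simp
      have := geom_sum_mul (ζ ^ (i : ℕ) * (ζ ^ (j : ℕ))⁻¹) n
      rw [hpow, sub_self] at this
      exact (mul_eq_zero.1 this).resolve_right (sub_ne_zero.2 hne)
  have hdet : V.det * (starRingEnd ℂ) V.det = (n : ℂ) ^ n := by
    have := congrArg Matrix.det hmul
    rw [Matrix.det_mul, Matrix.det_conjTranspose, Matrix.det_smul, Matrix.det_one, mul_one,
      Fintype.card_fin] at this
    exact this
  have hsq : ‖V.det‖ ^ 2 = (n : ℝ) ^ n := by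
    have := congrArg norm hdet
    rw [norm_mul, RCLike.norm_conj, norm_pow, Complex.norm_natCast] at this
    rw [sq]; exact this
  have h1n : (1 : ℝ) ≤ (n : ℝ) ^ n := one_le_pow₀ (by exact_mod_cast hn)
  nlinarith [norm_nonneg V.det]

lemma dist_contract (u v : ℂ) (hu : ‖u‖ = 1) (hv : ‖v‖ = 1) (s t R : ℝ) (hR : 0 ≤ R)
    (hs : R ≤ s) (ht : R ≤ t) : ‖(R : ℂ) * v - R * u‖ ≤ ‖(t : ℂ) * v - s * u‖ := by
  rw [← sq_le_sq₀ (norm_nonneg _) (norm_nonneg _)]
  have hu2 : u.re ^ 2 + u.im ^ 2 = 1 := by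
    have := Complex.sq_norm u; rw [hu, Complex.normSq_apply] at this; nlinarith
  have hv2 : v.re ^ 2 + v.im ^ 2 = 1 := by
    have := Complex.sq_norm v; rw [hv, Complex.normSq_apply] at this; nlinarith
  have e : ∀ a b : ℝ, ‖(a : ℂ) * v - b * u‖ ^ 2
      = a ^ 2 + b ^ 2 - 2 * a * b * (u.re * v.re + u.im * v.im) := by
    intro a b
    rw [Complex.sq_norm, Complex.normSq_apply]
    simp
    nlinarith
  rw [e, e]
  have hc : u.re * v.re + u.im * v.im ≤ 1 := by nlinarith [sq_nonneg (u.re - v.re), sq_nonneg (u.im - v.im)]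
  have hst : R ^ 2 ≤ s * t := by nlinarith
  nlinarith [sq_nonneg (s - t), mul_nonneg (sub_nonneg.2 hc) (sub_nonneg.2 hst)]

lemma vandermonde_lower (n : ℕ) (hn : 0 < n) (R : ℝ) (hR : 0 ≤ R) (s : Fin n → ℝ)
    (hs : ∀ i, R ≤ s i) :
    R ^ (∑ i : Fin n, (i : ℕ)) ≤ ‖(Matrix.vandermonde
      (fun i : Fin n => (s i : ℂ) * exp (2 * Real.pi * I / n) ^ (i : ℕ))).det‖ := by
  set ζ : ℂ := exp (2 * Real.pi * I / n) with hζ
  have hprim : IsPrimitiveRoot ζ n := Complex.isPrimitiveRoot_exp n hn.ne'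
  have hnorm : ‖ζ‖ = 1 := hprim.norm'_eq_one hn.ne'
  have h1 : ‖(Matrix.vandermonde (fun i : Fin n => (R : ℂ) * ζ ^ (i : ℕ))).det‖
      ≤ ‖(Matrix.vandermonde (fun i : Fin n => (s i : ℂ) * ζ ^ (i : ℕ))).det‖ := by
    rw [Matrix.det_vandermonde, Matrix.det_vandermonde, norm_prod, norm_prod]
    apply prod_le_prod (fun _ _ => norm_nonneg _)
    intro i _
    rw [norm_prod, norm_prod]
    apply prod_le_prod (fun _ _ => norm_nonneg _)
    intro j _
    apply dist_contract _ _ _ _ _ _ _ hR (hs i) (hs j)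
    · rw [norm_pow, hnorm, one_pow]
    · rw [norm_pow, hnorm, one_pow]
  refine le_trans ?_ h1
  have h2 : Matrix.vandermonde (fun i : Fin n => (R : ℂ) * ζ ^ (i : ℕ))
      = Matrix.vandermonde (fun i : Fin n => ζ ^ (i : ℕ)) *
        Matrix.diagonal (fun i : Fin n => (R : ℂ) ^ (i : ℕ)) := by
    ext i j
    rw [Matrix.mul_diagonal]
    simp only [Matrix.vandermonde_apply, mul_pow]
    ring
  rw [h2, Matrix.det_mul, Matrix.det_diagonal, prod_pow_eq_pow_sum, norm_mul, norm_pow,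
    Complex.norm_real, Real.norm_of_nonneg hR]
  have := vandermonde_roots n hn
  have hpos : 0 ≤ R ^ (∑ i : Fin n, (i : ℕ)) := by positivity
  nlinarith

/-! ### The key theorem: radial segments of every length less than one -/

lemma growth_contra (q C : ℝ) (hq : 1 < q)
    (h : ∀ m : ℕ, q ^ m ≤ (2 * m + 1) * C) : False := by
  have hlim : Filter.Tendsto (fun m : ℕ => ((m : ℝ) ^ 1) / q ^ m) Filter.atTop (nhds 0) :=
    tendsto_pow_const_div_const_pow_of_one_lt 1 hq
  have hC : 0 < C := by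
    have := h 0
    simp at this; linarith
  have hev := hlim.eventually (gt_mem_nhds (show (0 : ℝ) < 1 / (4 * C) by positivity))
  obtain ⟨N, hN⟩ := Filter.eventually_atTop.1 hev
  have h1 := hN (N + 1) (by omega)
  have h2 := h (N + 1)
  have hqp : 0 < q ^ (N + 1) := by positivity
  rw [div_lt_div_iff₀ hqp (by positivity)] at h1
  have h3 : (1 : ℝ) ≤ ((N + 1 : ℕ) : ℝ) := by exact_mod_cast (by omega : 1 ≤ N + 1)
  nlinarith

theorem exists_direction (f : ℂ → ℂ) (hf : DifferentiableOn ℂ f (ball 0 1)) (h0 : f 0 = 0)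
    (h1 : deriv f 0 = 1) (ℓ : ℝ) (hℓ0 : 0 < ℓ) (hℓ1 : ℓ < 1) :
    ∃ θ : ℝ, ∀ t : ℝ, 0 ≤ t → t < ℓ → (t : ℂ) * exp (θ * I) ∈ f '' ball 0 1 := by
  by_contra hcon
  push Not at hcon
  -- choose a blocking radius in each direction
  choose T hT0 hTℓ hTn using hcon
  have hTpos : ∀ θ, 0 < T θ := by
    intro θ
    rcases (hT0 θ).lt_or_eq with h | h
    · exact h
    · exfalso
      apply hTn θ
      rw [← h]
      exact ⟨0, mem_ball_self one_pos, by simp [h0]⟩
  -- choose r
  obtain ⟨r, hr1, hr2⟩ := exists_between hℓ1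
  have hr0 : 0 < r := hℓ0.trans hr1
  -- the image is a neighbourhood of the compact set f(sphere r)
  have hopen : IsOpen (f '' ball 0 1) := by
    have han : AnalyticOnNhd ℂ f (ball 0 1) := hf.analyticOnNhd isOpen_ball
    rcases han.is_constant_or_isOpen (convex_ball 0 1).isPreconnected with ⟨w, hw⟩ | h
    · exfalso
      have : deriv f 0 = 0 := by
        have hev : f =ᶠ[nhds 0] fun _ => w := by
          filter_upwards [ball_mem_nhds (0 : ℂ) one_pos] with x hx using hw x hx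
        rw [hev.deriv_eq]; simp
      rw [h1] at this
      exact one_ne_zero this
    · exact h _ subset_rfl isOpen_ball
  have hsub' : sphere (0 : ℂ) r ⊆ ball 0 1 :=
    sphere_subset_closedBall.trans (closedBall_subset_ball hr2)
  have hK : IsCompact (f '' sphere 0 r) :=
    (isCompact_sphere 0 r).image_of_continuousOn (hf.mono hsub').continuousOn
  obtain ⟨δ, hδ, hthick⟩ := hK.exists_thickening_subset_open hopen (image_mono hsub')
  -- the omitted reciprocals
  have hkey : ∀ n : ℕ, 0 < n → (ℓ⁻¹ * r) ^ (∑ i : Fin n, (i : ℕ)) ≤ n.factorial * (δ⁻¹) ^ n := by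
    intro n hn
    set ζ : ℂ := exp (2 * Real.pi * I / n) with hζ
    let θ : Fin n → ℝ := fun i => -(2 * Real.pi * i / n)
    let s : Fin n → ℝ := fun i => (T (θ i))⁻¹
    let v : Fin n → ℂ := fun i => (s i : ℂ) * ζ ^ (i : ℕ)
    have hs : ∀ i, ℓ⁻¹ ≤ s i := fun i => by
      simp only [s]
      exact inv_anti₀ (hTpos _) (hTℓ _).le
    have hvinv : ∀ i, (v i)⁻¹ = (T (θ i) : ℂ) * exp (θ i * I) := by
      intro i
      simp only [v, s, mul_inv, θ, ofReal_inv, inv_inv]
      rw [hζ, ← Complex.exp_nat_mul, ← Complex.exp_neg]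
      congr 2
      push_cast
      ring
    have hv0 : ∀ i, v i ≠ 0 := by
      intro i hi
      have := hvinv i
      rw [hi, inv_zero] at this
      have h2 : (T (θ i) : ℂ) * exp (θ i * I) ≠ 0 :=
        mul_ne_zero (ofReal_ne_zero.2 (hTpos _).ne') (exp_ne_zero _)
      exact h2 this.symm
    have hvn : ∀ i, (v i)⁻¹ ∉ f '' ball 0 1 := by
      intro i; rw [hvinv i]; exact hTn _
    have hdec : ∀ i x, 1 - v i * f x = v i * ((v i)⁻¹ - f x) := by
      intro i x; rw [mul_sub, mul_inv_cancel₀ (hv0 i)]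
    have hne : ∀ i, ∀ x ∈ ball (0 : ℂ) 1, 1 - v i * f x ≠ 0 := by
      intro i x hx
      rw [hdec]
      apply mul_ne_zero (hv0 i)
      intro h
      exact hvn i ⟨x, hx, (sub_eq_zero.1 h).symm⟩
    have hvnorm : ∀ i, 1 ≤ ‖v i‖ := by
      intro i
      have hprim : IsPrimitiveRoot ζ n := Complex.isPrimitiveRoot_exp n hn.ne'
      have hnorm : ‖ζ‖ = 1 := hprim.norm'_eq_one hn.ne'
      simp only [v]
      rw [norm_mul, norm_pow, hnorm, one_pow, mul_one, Complex.norm_real,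
        Real.norm_of_nonneg (by simp only [s]; exact inv_nonneg.2 (hTpos _).le)]
      exact (one_le_inv₀ hℓ0).2 hℓ1.le |>.trans (hs i)
    have hbd : ∀ i, ∀ x ∈ sphere (0 : ℂ) r, ‖(1 - v i * f x)⁻¹‖ ≤ δ⁻¹ := by
      intro i x hx
      rw [norm_inv]
      apply inv_anti₀ hδ
      rw [hdec, norm_mul]
      have hd : δ ≤ ‖(v i)⁻¹ - f x‖ := by
        by_contra hlt
        push Not at hlt
        apply hvn i
        apply hthick
        rw [mem_thickening_iff]
        exact ⟨f x, mem_image_of_mem f hx, by rw [dist_eq_norm]; exact hlt⟩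
      have := hvnorm i
      nlinarith [norm_nonneg ((v i)⁻¹ - f x)]
    have hup := vandermonde_upper hf h0 h1 hr0 hr2 v hne δ⁻¹ hbd
    have hlow := vandermonde_lower n hn ℓ⁻¹ (inv_nonneg.2 hℓ0.le) s hs
    have hcomb := hlow.trans hup
    rw [prod_div_distrib, prod_const, card_univ, Fintype.card_fin, prod_pow_eq_pow_sum] at hcomb
    rw [mul_pow]
    rw [← mul_div_assoc, le_div_iff₀ (by positivity)] at hcomb
    exact hcomb
  -- growth contradiction
  apply growth_contra (ℓ⁻¹ * r) δ⁻¹ (by rw [← div_eq_inv_mul, lt_div_iff₀ hℓ0]; linarith)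
  intro m
  have h := hkey (2 * m + 1) (by omega)
  have hsum : ∑ i : Fin (2 * m + 1), (i : ℕ) = m * (2 * m + 1) := by
    rw [Fin.sum_univ_eq_sum_range (fun i => i), Finset.sum_range_id]
    rw [show 2 * m + 1 - 1 = 2 * m by omega]
    rw [show (2 * m + 1) * (2 * m) = 2 * (m * (2 * m + 1)) by ring]
    exact Nat.mul_div_cancel_left _ (by norm_num)
  rw [hsum, pow_mul] at h
  have hfact : ((2 * m + 1).factorial : ℝ) ≤ ((2 * m + 1 : ℕ) : ℝ) ^ (2 * m + 1) := by
    exact_mod_cast Nat.factorial_le_pow (2 * m + 1)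
  have h2 : ((ℓ⁻¹ * r) ^ m) ^ (2 * m + 1) ≤ ((2 * m + 1) * δ⁻¹) ^ (2 * m + 1) := by
    refine h.trans ?_
    rw [mul_pow]
    refine mul_le_mul_of_nonneg_right ?_ (by positivity)
    calc ((2 * m + 1).factorial : ℝ) ≤ ((2 * m + 1 : ℕ) : ℝ) ^ (2 * m + 1) := hfact
      _ = _ := by push_cast; ring
  exact le_of_pow_le_pow_left₀ (by omega) (by positivity) h2


/-! ### Equidistributed directions: the geometric mean of the radial distances -/

lemma dist_geo (u v : ℂ) (hu : ‖u‖ = 1) (hv : ‖v‖ = 1) (s t : ℝ) (hs : 0 ≤ s) (ht : 0 ≤ t) :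
    √s * √t * ‖v - u‖ ≤ ‖(t : ℂ) * v - s * u‖ := by
  rw [← sq_le_sq₀ (by positivity) (norm_nonneg _), mul_pow, mul_pow, Real.sq_sqrt hs,
    Real.sq_sqrt ht]
  have hu2 : u.re ^ 2 + u.im ^ 2 = 1 := by
    have := Complex.sq_norm u; rw [hu, Complex.normSq_apply] at this; nlinarith
  have hv2 : v.re ^ 2 + v.im ^ 2 = 1 := by
    have := Complex.sq_norm v; rw [hv, Complex.normSq_apply] at this; nlinarith
  have e : ∀ a b : ℝ, ‖(a : ℂ) * v - b * u‖ ^ 2
      = a ^ 2 + b ^ 2 - 2 * a * b * (u.re * v.re + u.im * v.im) := by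
    intro a b
    rw [Complex.sq_norm, Complex.normSq_apply]
    simp
    nlinarith
  have e1 := e 1 1
  rw [Complex.ofReal_one, one_mul, one_mul] at e1
  rw [e, e1]
  nlinarith [sq_nonneg (s - t)]

lemma prod_pairs (n : ℕ) (a : Fin n → ℝ) :
    ∏ i : Fin n, ∏ j ∈ Ioi i, (a i * a j) = (∏ i, a i) ^ (n - 1) := by
  have h1 : ∏ i : Fin n, ∏ j ∈ Ioi i, (a i * a j) =
      (∏ i : Fin n, ∏ j ∈ Ioi i, a i) * ∏ i : Fin n, ∏ j ∈ Ioi i, a j := by
    rw [← prod_mul_distrib]
    exact prod_congr rfl fun i _ => prod_mul_distrib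
  have h2 : ∏ i : Fin n, ∏ j ∈ Ioi i, a j = ∏ j : Fin n, ∏ i ∈ Iio j, a j := by
    apply Finset.prod_comm'
    intro x y
    simp
  rw [h1, h2, ← prod_mul_distrib, ← Finset.prod_pow]
  refine prod_congr rfl fun i _ => ?_
  rw [prod_const, prod_const, Fin.card_Ioi, Fin.card_Iio, ← pow_add]
  congr 1
  have := i.2
  omega

lemma vandermonde_geo (n : ℕ) (hn : 0 < n) (u : Fin n → ℂ) (hu : ∀ i, ‖u i‖ = 1)
    (hd : ∀ i j : Fin n, ‖u j - u i‖ =
      ‖exp (2 * Real.pi * I / n) ^ (j : ℕ) - exp (2 * Real.pi * I / n) ^ (i : ℕ)‖)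
    (s : Fin n → ℝ) (hs : ∀ i, 0 ≤ s i) :
    (∏ i, √(s i)) ^ (n - 1) ≤
      ‖(Matrix.vandermonde (fun i : Fin n => (s i : ℂ) * u i)).det‖ := by
  have h1 := vandermonde_roots n hn
  rw [Matrix.det_vandermonde, norm_prod] at h1 ⊢
  rw [← prod_pairs]
  have h2 : (∏ i : Fin n, ∏ j ∈ Ioi i, (√(s i) * √(s j))) *
      (∏ i : Fin n, ‖∏ j ∈ Ioi i, (exp (2 * Real.pi * I / n) ^ (j : ℕ) -
        exp (2 * Real.pi * I / n) ^ (i : ℕ))‖) ≤
      ∏ i : Fin n, ‖∏ j ∈ Ioi i, ((s j : ℂ) * u j - (s i : ℂ) * u i)‖ := by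
    rw [← prod_mul_distrib]
    refine prod_le_prod (fun i _ => by positivity) fun i _ => ?_
    rw [norm_prod, norm_prod, ← prod_mul_distrib]
    refine prod_le_prod (fun j _ => by positivity) fun j _ => ?_
    rw [← hd i j]
    exact dist_geo _ _ (hu i) (hu j) _ _ (hs i) (hs j)
  refine le_trans ?_ h2
  exact le_mul_of_one_le_right (by positivity) h1

lemma isOpen_image (f : ℂ → ℂ) (hf : DifferentiableOn ℂ f (ball 0 1)) (h1 : deriv f 0 = 1) :
    IsOpen (f '' ball 0 1) := by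
  have han : AnalyticOnNhd ℂ f (ball 0 1) := hf.analyticOnNhd isOpen_ball
  rcases han.is_constant_or_isOpen (convex_ball 0 1).isPreconnected with ⟨w, hw⟩ | h
  · exfalso
    have : deriv f 0 = 0 := by
      have hev : f =ᶠ[nhds 0] fun _ => w := by
        filter_upwards [ball_mem_nhds (0 : ℂ) one_pos] with x hx using hw x hx
      rw [hev.deriv_eq]; simp
    rw [h1] at this
    exact one_ne_zero this
  · exact h _ subset_rfl isOpen_ball

/-- For `n` equally spaced directions, the product of the distances (along the rays) to omitted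
points is at least `r ^ n`, up to a factor that is subexponential in `n`. -/
lemma geo_key (f : ℂ → ℂ) (hf : DifferentiableOn ℂ f (ball 0 1)) (h0 : f 0 = 0)
    (h1 : deriv f 0 = 1) (r : ℝ) (hr0 : 0 < r) (hr1 : r < 1) :
    ∃ C : ℝ, 1 ≤ C ∧ ∀ (n : ℕ) (_ : 0 < n) (φ : ℝ) (T : Fin n → ℝ), (∀ i, 0 < T i) →
      (∀ i, (T i : ℂ) * exp ((φ + 2 * Real.pi * (i : ℕ) / n : ℝ) * I) ∉ f '' ball 0 1) →
      (∏ i, √(T i)⁻¹) ^ (n - 1) * r ^ (∑ i : Fin n, (i : ℕ)) ≤ n.factorial * C ^ n := by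
  have hopen := isOpen_image f hf h1
  have hsub' : sphere (0 : ℂ) r ⊆ ball 0 1 :=
    sphere_subset_closedBall.trans (closedBall_subset_ball hr1)
  have hK : IsCompact (f '' sphere 0 r) :=
    (isCompact_sphere 0 r).image_of_continuousOn (hf.mono hsub').continuousOn
  obtain ⟨δ, hδ, hthick⟩ := hK.exists_thickening_subset_open hopen (image_mono hsub')
  obtain ⟨M, hM⟩ := hK.isBounded.exists_norm_le
  have hM0 : 0 ≤ M := by
    refine (norm_nonneg (f r)).trans (hM _ ⟨r, ?_, rfl⟩)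
    simp [abs_of_pos hr0]
  refine ⟨max 2 (2 * (M + 1) / δ), le_trans (by norm_num) (le_max_left _ _), ?_⟩
  intro n hn φ T hT hTn
  set C := max 2 (2 * (M + 1) / δ) with hC
  set ζ : ℂ := exp (2 * Real.pi * I / n) with hζ
  let u : Fin n → ℂ := fun i => exp (-((φ + 2 * Real.pi * (i : ℕ) / n : ℝ) * I))
  let v : Fin n → ℂ := fun i => (((T i)⁻¹ : ℝ) : ℂ) * u i
  have hprim : IsPrimitiveRoot ζ n := Complex.isPrimitiveRoot_exp n hn.ne'
  have hnorm : ‖ζ‖ = 1 := hprim.norm'_eq_one hn.ne'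
  have hζ0 : ζ ≠ 0 := by intro h; rw [h] at hnorm; simp at hnorm
  have hu : ∀ i, ‖u i‖ = 1 := by
    intro i
    simp only [u]
    rw [← neg_mul, ← ofReal_neg, Complex.norm_exp_ofReal_mul_I]
  have hu' : ∀ i, u i = exp (-(φ * I)) * (ζ ^ (i : ℕ))⁻¹ := by
    intro i
    simp only [u]
    rw [hζ, ← Complex.exp_nat_mul, ← Complex.exp_neg, ← Complex.exp_add]
    congr 1
    push_cast
    ring
  have hc1 : ‖exp (-(φ * I))‖ = 1 := by
    rw [← neg_mul, ← ofReal_neg, Complex.norm_exp_ofReal_mul_I]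
  have hd : ∀ i j : Fin n, ‖u j - u i‖ = ‖ζ ^ (j : ℕ) - ζ ^ (i : ℕ)‖ := by
    intro i j
    rw [hu', hu', ← mul_sub, norm_mul, hc1, one_mul,
      inv_sub_inv (pow_ne_zero _ hζ0) (pow_ne_zero _ hζ0), norm_div, norm_mul, norm_pow, norm_pow,
      hnorm, one_pow, one_pow, mul_one, div_one, norm_sub_rev]
  have hlow := vandermonde_geo n hn u hu hd (fun i => (T i)⁻¹) (fun i => (inv_pos.2 (hT i)).le)
  have hv0 : ∀ i, v i ≠ 0 := by
    intro i
    refine mul_ne_zero (ofReal_ne_zero.2 (inv_ne_zero (hT i).ne')) (exp_ne_zero _)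
  have hvinv : ∀ i, (v i)⁻¹ = (T i : ℂ) * exp ((φ + 2 * Real.pi * (i : ℕ) / n : ℝ) * I) := by
    intro i
    simp only [v, u]
    rw [mul_inv, ← ofReal_inv, inv_inv, ← Complex.exp_neg, neg_neg]
  have hvn : ∀ i, (v i)⁻¹ ∉ f '' ball 0 1 := by
    intro i; rw [hvinv i]; exact hTn i
  have hdec : ∀ i x, 1 - v i * f x = v i * ((v i)⁻¹ - f x) := by
    intro i x; rw [mul_sub, mul_inv_cancel₀ (hv0 i)]
  have hne : ∀ i, ∀ x ∈ ball (0 : ℂ) 1, 1 - v i * f x ≠ 0 := by
    intro i x hx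
    rw [hdec]
    apply mul_ne_zero (hv0 i)
    intro h
    exact hvn i ⟨x, hx, (sub_eq_zero.1 h).symm⟩
  have hbd : ∀ i, ∀ x ∈ sphere (0 : ℂ) r, ‖(1 - v i * f x)⁻¹‖ ≤ C := by
    intro i x hx
    rw [norm_inv]
    have hfx : ‖f x‖ ≤ M := hM _ (mem_image_of_mem f hx)
    rcases le_total (‖v i‖ * (2 * (M + 1))) 1 with hsm | hlg
    · have h2 : (2 : ℝ)⁻¹ ≤ ‖1 - v i * f x‖ := by
        have h3 : ‖(1 : ℂ)‖ - ‖v i * f x‖ ≤ ‖1 - v i * f x‖ := norm_sub_norm_le _ _
        rw [norm_one, norm_mul] at h3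
        have h4 : ‖v i‖ * ‖f x‖ ≤ ‖v i‖ * (M + 1) :=
          mul_le_mul_of_nonneg_left (by linarith) (norm_nonneg _)
        linarith
      calc ‖1 - v i * f x‖⁻¹ ≤ (2⁻¹ : ℝ)⁻¹ := inv_anti₀ (by norm_num) h2
        _ = 2 := by norm_num
        _ ≤ C := le_max_left _ _
    · have hdd : δ ≤ ‖(v i)⁻¹ - f x‖ := by
        by_contra hlt
        push Not at hlt
        apply hvn i
        apply hthick
        rw [mem_thickening_iff]
        exact ⟨f x, mem_image_of_mem f hx, by rw [dist_eq_norm]; exact hlt⟩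
      have h2 : δ / (2 * (M + 1)) ≤ ‖1 - v i * f x‖ := by
        rw [hdec, norm_mul, div_le_iff₀ (by positivity)]
        have h5 : δ * 1 ≤ ‖(v i)⁻¹ - f x‖ * (‖v i‖ * (2 * (M + 1))) :=
          mul_le_mul hdd hlg zero_le_one (norm_nonneg _)
        linarith
      calc ‖1 - v i * f x‖⁻¹ ≤ (δ / (2 * (M + 1)))⁻¹ := inv_anti₀ (by positivity) h2
        _ = 2 * (M + 1) / δ := by rw [inv_div]
        _ ≤ C := le_max_right _ _
  have hup := vandermonde_upper hf h0 h1 hr0 hr1 v hne C hbd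
  have hcomb := hlow.trans hup
  rw [prod_div_distrib, prod_const, card_univ, Fintype.card_fin, prod_pow_eq_pow_sum] at hcomb
  rw [← mul_div_assoc, le_div_iff₀ (by positivity)] at hcomb
  exact hcomb

/-- **Equidistributed directions.**  The logarithmic mean of the distances to omitted points along
`n` equally spaced rays is at least `-ε` for all large `n`, uniformly in the rotation. -/
lemma geo_mean (f : ℂ → ℂ) (hf : DifferentiableOn ℂ f (ball 0 1)) (h0 : f 0 = 0)
    (h1 : deriv f 0 = 1) (ε : ℝ) (hε : 0 < ε) :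
    ∃ N : ℕ, ∀ n : ℕ, N ≤ n → 0 < n → ∀ (φ : ℝ) (T : Fin n → ℝ), (∀ i, 0 < T i) →
      (∀ i, (T i : ℂ) * exp ((φ + 2 * Real.pi * (i : ℕ) / n : ℝ) * I) ∉ f '' ball 0 1) →
      -(ε * n) ≤ ∑ i, Real.log (T i) := by
  set r := Real.exp (-(ε / 2)) with hr
  have hr0 : 0 < r := Real.exp_pos _
  have hr1 : r < 1 := by rw [hr, Real.exp_lt_one_iff]; linarith
  obtain ⟨C, hC1, hC⟩ := geo_key f hf h0 h1 r hr0 hr1
  have hlogr : Real.log r = -(ε / 2) := by rw [hr, Real.log_exp]
  have hlim : Filter.Tendsto (fun n : ℕ => (Real.log n + Real.log C) / ((n : ℝ) - 1))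
      Filter.atTop (nhds 0) := by
    have hA : Filter.Tendsto (fun x : ℝ => Real.log x / (1 * x + (-1))) Filter.atTop (nhds 0) := by
      simpa using Real.tendsto_pow_log_div_mul_add_atTop 1 (-1) 1 one_ne_zero
    have hB : Filter.Tendsto (fun x : ℝ => Real.log C / (1 * x + (-1))) Filter.atTop (nhds 0) := by
      apply Filter.Tendsto.const_div_atTop
      exact Filter.tendsto_atTop_add_const_right _ _ (Filter.tendsto_id.const_mul_atTop one_pos)
    have hAB := (hA.add hB).comp tendsto_natCast_atTop_atTop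
    rw [add_zero] at hAB
    refine hAB.congr fun n => ?_
    simp only [Function.comp_apply]
    rw [← add_div]
    congr 1
    ring
  obtain ⟨N, hN⟩ := Filter.eventually_atTop.1 (hlim.eventually (gt_mem_nhds (show 0 < ε / 4 by positivity)))
  refine ⟨max N 2, fun n hn hn0 φ T hT hTn => ?_⟩
  have h2n : 2 ≤ n := (le_max_right _ _).trans hn
  have h2n' : (2 : ℝ) ≤ n := by exact_mod_cast h2n
  have hNn := hN n ((le_max_left _ _).trans hn)
  have hmain := hC n hn0 φ T hT hTn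
  have hpos : 0 < ∏ i, √(T i)⁻¹ := prod_pos fun i _ => Real.sqrt_pos.2 (inv_pos.2 (hT i))
  have hlog := Real.log_le_log (mul_pos (pow_pos hpos _) (pow_pos hr0 _)) hmain
  rw [Real.log_mul (pow_pos hpos _).ne' (pow_pos hr0 _).ne', Real.log_pow, Real.log_pow, hlogr,
    Real.log_prod (fun i _ => (Real.sqrt_pos.2 (inv_pos.2 (hT i))).ne'),
    Real.log_mul (by positivity) (by positivity), Real.log_pow] at hlog
  have hS : ∑ i, Real.log (√(T i)⁻¹) = -(∑ i, Real.log (T i)) / 2 := by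
    rw [← sum_neg_distrib, sum_div]
    refine sum_congr rfl fun i _ => ?_
    rw [Real.log_sqrt (inv_pos.2 (hT i)).le, Real.log_inv]
  have hfact : Real.log (n.factorial : ℝ) ≤ n * Real.log n := by
    rw [← Real.log_pow]
    apply Real.log_le_log (by positivity)
    exact_mod_cast Nat.factorial_le_pow n
  have hsum : ((∑ i : Fin n, (i : ℕ) : ℕ) : ℝ) = n * (n - 1) / 2 := by
    rw [Fin.sum_univ_eq_sum_range (fun i => i)]
    have := Finset.sum_range_id_mul_two n
    have h3 : ((∑ i ∈ range n, i : ℕ) : ℝ) * 2 = n * (n - 1) := by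
      have h4 : (((∑ i ∈ range n, i) * 2 : ℕ) : ℝ) = ((n * (n - 1) : ℕ) : ℝ) := by rw [this]
      rw [Nat.cast_mul, Nat.cast_mul, Nat.cast_sub (by omega)] at h4
      simpa using h4
    linarith
  rw [hS, hsum] at hlog
  have hcast : ((n - 1 : ℕ) : ℝ) = n - 1 := by
    rw [Nat.cast_sub (by omega)]; simp
  rw [hcast] at hlog
  rw [div_lt_iff₀ (by linarith)] at hNn
  have hq : 0 < (n : ℝ) - 1 := by linarith
  have h5 : ((n : ℝ) - 1) * (-(ε * n)) ≤ ((n : ℝ) - 1) * ∑ i, Real.log (T i) := by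
    nlinarith
  exact le_of_mul_le_mul_left h5 hq

/-! ### The radial reach -/

lemma id_mem_classS : (fun z : ℂ => z) ∈ classS := by
  refine ⟨differentiableOn_id, fun _ _ _ _ h => h, rfl, ?_⟩
  simp

lemma radialReach_id (f : ℂ → ℂ) (hf : ∀ z ∈ ball (0 : ℂ) 1, f z = z) : radialReach f ≤ 1 := by
  unfold radialReach
  apply iSup₂_le
  rintro ℓ ⟨hℓ, θ, hθ⟩
  rw [← ENNReal.ofReal_one]
  apply ENNReal.ofReal_le_ofReal
  by_contra hlt
  push Not at hlt
  obtain ⟨x, hx, hxe⟩ := hθ 1 zero_le_one hlt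
  rw [hf x hx] at hxe
  rw [mem_ball_zero_iff] at hx
  simp only [ofReal_one, one_mul] at hxe
  rw [hxe, Complex.norm_exp_ofReal_mul_I] at hx
  exact lt_irrefl _ hx

lemma one_le_radialReach (f : ℂ → ℂ) (hd : DifferentiableOn ℂ f (ball 0 1)) (h0 : f 0 = 0)
    (h1 : deriv f 0 = 1) : 1 ≤ radialReach f := by
  apply le_of_forall_lt
  intro c hc
  obtain ⟨ℓ, hℓ0, hcl, hl1⟩ := ENNReal.lt_iff_exists_real_btwn.1 hc
  have hℓ1 : ℓ < 1 := by
    rw [← ENNReal.ofReal_one, ENNReal.ofReal_lt_ofReal_iff one_pos] at hl1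
    exact hl1
  have hℓpos : 0 < ℓ := by
    rcases hℓ0.lt_or_eq with h | h
    · exact h
    · rw [← h] at hcl; simp at hcl
  refine lt_of_lt_of_le hcl ?_
  unfold radialReach
  exact le_iSup₂_of_le ℓ ⟨hℓpos, exists_direction f hd h0 h1 ℓ hℓpos hℓ1⟩ le_rfl

/-- If the radial reach is at most `1`, every ray carries an omitted point at distance at most `1`
from the origin. -/
lemma exists_omitted (f : ℂ → ℂ) (hd : DifferentiableOn ℂ f (ball 0 1)) (h0 : f 0 = 0)
    (h1 : deriv f 0 = 1) (hr : radialReach f ≤ 1) (θ : ℝ) :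
    ∃ T : ℝ, 0 < T ∧ T ≤ 1 ∧ (T : ℂ) * exp (θ * I) ∉ f '' ball 0 1 := by
  have hopen := isOpen_image f hd h1
  set S : Set ℝ := {t | 0 ≤ t ∧ (t : ℂ) * exp (θ * I) ∉ f '' ball 0 1} with hS
  have hclosed : IsClosed S := by
    have h2 : IsClosed {t : ℝ | (t : ℂ) * exp (θ * I) ∉ f '' ball 0 1} := by
      have h3 : IsOpen ((fun t : ℝ => (t : ℂ) * exp (θ * I)) ⁻¹' (f '' ball 0 1)) :=
        hopen.preimage (by fun_prop)
      exact h3.isClosed_compl
    exact isClosed_Ici.inter h2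
  have hlarge : ∀ ℓ : ℝ, 0 < ℓ → (∀ t : ℝ, 0 ≤ t → t < ℓ → (t : ℂ) * exp (θ * I) ∈ f '' ball 0 1) →
      ℓ ≤ 1 := by
    intro ℓ hℓ h
    have h2 : ENNReal.ofReal ℓ ≤ radialReach f := by
      unfold radialReach
      exact le_iSup₂_of_le ℓ ⟨hℓ, θ, h⟩ le_rfl
    have h3 := h2.trans hr
    rw [← ENNReal.ofReal_one] at h3
    exact (ENNReal.ofReal_le_ofReal_iff zero_le_one).1 h3
  have hne : S.Nonempty := by
    by_contra hcon
    rw [Set.not_nonempty_iff_eq_empty] at hcon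
    have h2 := hlarge 2 two_pos fun t ht _ => by
      by_contra h3
      have : t ∈ S := ⟨ht, h3⟩
      rw [hcon] at this
      exact this
    norm_num at h2
  have hbdd : BddBelow S := ⟨0, fun t ht => ht.1⟩
  have hmem := hclosed.csInf_mem hne hbdd
  have hpos : 0 < sInf S := by
    rcases hmem.1.lt_or_eq with h | h
    · exact h
    · exfalso
      apply hmem.2
      rw [← h]
      exact ⟨0, mem_ball_self one_pos, by simp [h0]⟩
  refine ⟨sInf S, hpos, ?_, hmem.2⟩
  apply hlarge _ hpos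
  intro t ht hlt
  by_contra h3
  exact absurd (csInf_le hbdd (show t ∈ S from ⟨ht, h3⟩)) (not_le.2 hlt)

/-- If the radial reach is at most `1`, no point of the unit circle is in the image. -/
lemma circle_omitted (f : ℂ → ℂ) (hd : DifferentiableOn ℂ f (ball 0 1)) (h0 : f 0 = 0)
    (h1 : deriv f 0 = 1) (hr : radialReach f ≤ 1) (θ : ℝ) :
    exp (θ * I) ∉ f '' ball 0 1 := by
  intro hmem
  have hopen := isOpen_image f hd h1
  choose T hT0 hT1 hTn using exists_omitted f hd h0 h1 hr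
  have hpre : IsOpen ((fun p : ℝ × ℝ => (p.1 : ℂ) * exp (p.2 * I)) ⁻¹' (f '' ball 0 1)) :=
    hopen.preimage (by fun_prop)
  obtain ⟨η, hη, hsub⟩ := Metric.isOpen_iff.1 hpre (1, θ) (by simpa using hmem)
  have hTη : ∀ x : ℝ, |x - θ| < η → T x ≤ 1 - η := by
    intro x hx
    by_contra hcon
    push Not at hcon
    apply hTn x
    have : ((T x, x) : ℝ × ℝ) ∈ ball ((1, θ) : ℝ × ℝ) η := by
      rw [mem_ball, Prod.dist_eq, max_lt_iff, Real.dist_eq, Real.dist_eq]
      refine ⟨?_, hx⟩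
      rw [abs_lt]
      have := hT1 x
      constructor <;> linarith
    exact hsub this
  have hη1 : 0 < 1 - η := (hT0 θ).trans_le (hTη θ (by simpa using hη))
  set L := Real.log (1 - η) with hL
  have hLneg : L < 0 := Real.log_neg hη1 (by linarith)
  obtain ⟨k, hk⟩ := exists_nat_gt (2 * Real.pi / η)
  have hk0 : (0 : ℝ) < k := lt_trans (by positivity) hk
  have hkn : 0 < k := by exact_mod_cast hk0
  rw [div_lt_iff₀ hη] at hk
  obtain ⟨N, hN⟩ := geo_mean f hd h0 h1 (-L / (2 * k)) (by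
    apply div_pos <;> linarith)
  set m := N + 1 with hm
  have hn0 : 0 < k * m := by positivity
  have hkey := hN (k * m) (by nlinarith) hn0 θ
    (fun i => T (θ + 2 * Real.pi * (i : ℕ) / (k * m : ℕ))) (fun i => hT0 _) (fun i => hTn _)
  have hbound : ∑ i : Fin (k * m), Real.log (T (θ + 2 * Real.pi * (i : ℕ) / (k * m : ℕ))) ≤
      m * L := by
    have h2 : ∑ i : Fin (k * m), Real.log (T (θ + 2 * Real.pi * (i : ℕ) / (k * m : ℕ))) ≤
        ∑ i : Fin (k * m), (if (i : ℕ) < m then L else 0) := by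
      refine sum_le_sum fun i _ => ?_
      split_ifs with him
      · apply Real.log_le_log (hT0 _)
        apply hTη
        rw [add_sub_cancel_left, abs_of_nonneg (by positivity), div_lt_iff₀ (by exact_mod_cast hn0)]
        have h3 : ((i : ℕ) : ℝ) < m := by exact_mod_cast him
        push_cast
        have h4 : (0 : ℝ) < m := by positivity
        have h5 := Real.pi_pos
        nlinarith [mul_lt_mul_of_pos_left h3 (mul_pos two_pos h5), mul_lt_mul_of_pos_right hk h4]
      · exact Real.log_nonpos (hT0 _).le (hT1 _)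
    refine h2.trans (le_of_eq ?_)
    rw [Fin.sum_univ_eq_sum_range (fun i => if i < m then L else 0), ← sum_filter]
    have h3 : (range (k * m)).filter (fun i => i < m) = range m := by
      ext i
      simp only [Finset.mem_filter, Finset.mem_range]
      constructor
      · exact fun h => h.2
      · exact fun h => ⟨by nlinarith, h⟩
    rw [h3, sum_const, card_range, nsmul_eq_mul]
  have h6 := hkey.trans hbound
  have hm0 : (0 : ℝ) < m := by positivity
  have h7 : -(-L / (2 * k) * ((k * m : ℕ) : ℝ)) = m * (L / 2) := by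
    push_cast
    field_simp
  rw [h7] at h6
  have h8 := le_of_mul_le_mul_left h6 hm0
  linarith

lemma rigidity (f : ℂ → ℂ) (hd : DifferentiableOn ℂ f (ball 0 1)) (h0 : f 0 = 0)
    (h1 : deriv f 0 = 1) (hr : radialReach f ≤ 1) : ∀ z ∈ ball (0 : ℂ) 1, f z = z := by
  have hcirc : ∀ w : ℂ, ‖w‖ = 1 → w ∉ f '' ball 0 1 := by
    intro w hw
    have h2 := circle_omitted f hd h0 h1 hr w.arg
    have h3 := Complex.norm_mul_exp_arg_mul_I w
    rw [hw, ofReal_one, one_mul] at h3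
    rwa [h3] at h2
  have hmaps : MapsTo f (ball 0 1) (ball 0 1) := by
    intro z hz
    rw [mem_ball_zero_iff]
    by_contra hcon
    push Not at hcon
    have hpre : IsPreconnected (ball (0 : ℂ) 1) := (convex_ball 0 1).isPreconnected
    have hcont : ContinuousOn (fun x => ‖f x‖) (ball 0 1) := hd.continuousOn.norm
    have h2 := hpre.intermediate_value (mem_ball_self one_pos) hz hcont
    have h3 : (1 : ℝ) ∈ Icc ‖f 0‖ ‖f z‖ := ⟨by simp [h0], hcon⟩
    obtain ⟨x, hx, hx1⟩ := h2 h3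
    exact hcirc (f x) hx1 (mem_image_of_mem f hx)
  have h4 := Complex.affine_of_mapsTo_ball_of_norm_dslope_eq_div (c := 0) (z₀ := 0) (R₁ := 1)
    (R₂ := 1) hd (by rw [h0]; exact hmaps.mono_right ball_subset_closedBall) (mem_ball_self one_pos) (by simp [h1])
  intro z hz
  have h5 := h4 hz
  simpa [h0, h1] using h5

/-- **MacGregor's radial segment problem**: the best constant is exactly `1`; the inequality
holds for every normalised holomorphic function on the unit disk, injective or not, and it is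
strict for all of them except the identity. -/
theorem result : (⨅ f ∈ classS, radialReach f = 1) ∧
    ∀ f : ℂ → ℂ, DifferentiableOn ℂ f (ball 0 1) → f 0 = 0 → deriv f 0 = 1 →
      1 ≤ radialReach f ∧ (radialReach f = 1 ↔ ∀ z ∈ ball (0 : ℂ) 1, f z = z) := by
  refine ⟨le_antisymm ?_ ?_, fun f hd h0 h1 => ⟨one_le_radialReach f hd h0 h1, ?_, ?_⟩⟩
  · exact (iInf₂_le _ id_mem_classS).trans (radialReach_id _ fun _ _ => rfl)
  · exact le_iInf₂ fun f hf => one_le_radialReach f hf.1 hf.2.2.1 hf.2.2.2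
  · exact fun h => rigidity f hd h0 h1 h.le
  · exact fun h => le_antisymm (radialReach_id f h) (one_le_radialReach f hd h0 h1)

end Pool.Agent.Results.MP_d4bd36_an.MacGregor
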